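import Pool.Agent.H838R2.PL.Final

/-!
# The exponential growth rate of the number of prime links exists

Let `l n` be the number of prime links with crossing number `n`.  The limit of `(l n) ^ (1 / n)`
exists (in `[0, ∞]`; by the theorem of Welsh it lies between `4` and `27 / 2`).

The definitions are in `Pool.Agent.H838R2.PL.Defs`.

The proof.  Let `L_0, ..., L_{K-1}` be prime links, `K ≥ 2`, with minimal diagrams `D_0, ...,
D_{K-1}`.  Circles `m_0, ..., m_{K-1}` are added to the disjoint union of the diagrams: `m_i` hooks
two strands of `D_i` (four crossings) and one strand of `D_{i-1}` (two crossings, indices modulo
`K`).  If the two strands are chosen suitably (strands of different components, or strands of a knot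
with different meridians for some homomorphism from its group to another group), the resulting link
is prime, its crossing number is exactly the sum of the numbers `c(L_i) + 6`, and it determines the
sequence `L_0, ..., L_{K-1}` up to at most `K * (N choose K)` possibilities (`N` is the crossing
number).  Therefore the product of the numbers `l (c_i)` is at most `K * (N choose K) * l N`, where
`N` is the sum of the numbers `c_i + 6`, and the limit exists.
-/

set_option autoImplicit false

namespace Pool.Agent.Results.MP_131179_gt.LimitExists

open Pool.Agent.H838R2.PL

/-- The limit of the `n`-th roots of the numbers of prime links with crossing number `n` exists. -/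
theorem result : ∃ c : ENNReal, Filter.Tendsto
    (fun n : ℕ => ((l n : ℕ∞) : ENNReal) ^ ((1 : ℝ) / n)) Filter.atTop (nhds c) :=
  final.2

end Pool.Agent.Results.MP_131179_gt.LimitExists
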